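import Pool.Agent.Work.MP_db9399_ts.Shares

/-!
# MP_db9399, TSPLIT, block BAL (helper95)

Balance of the nodes, deterministic. The degree of a light vertex in the class `j` is `dl cl' j v`,
and it is `0` if the class is not allowed at `v`. Nodes of the kinds K, N: twice the hypothesis on
the sides. Nodes of the kind S: the two sides are the two blocks; the swaps change `ε d` edges of a
block.
-/

set_option autoImplicit false

namespace Pool.Agent.Work.MP_db9399_ts.helper95

open Finset Classical
open Pool.Agent.Work.MP_db9399_all (nb)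
open Pool.Agent.Work.MP_db9399_sg (nsd)
open Pool.Agent.Work.MP_db9399_ox (sdg)
open Pool.Agent.Work.MP_db9399_clj.helper75 (OO blk nB eE cO lgF scO Shr)
open Pool.Agent.Work.MP_db9399_ts

universe u

variable {W B : Type u} [Fintype W] [Fintype B]

theorem mem_nb {G : SimpleGraph W} {v w : W} : w ∈ nb G v ↔ G.Adj v w := by simp [nb]

theorem mem_blk {bl : W → Option B} {b : B} {v : W} : v ∈ blk bl b ↔ bl v = some b := by
  simp [blk]

theorem mem_nsd {I : Type u} [Fintype I] {nd : W → Option (I × Bool)} {i : I} {s : Bool} {v : W} :
    v ∈ nsd nd i s ↔ nd v = some (i, s) := by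
  simp [nsd]

/-- degree of a light vertex in the class -/
theorem deg_HH (X : Dat W B) (co : W → W → Fin 6) (R : SimpleGraph W) (cl : W → W → Fin 6)
    (hs : ∀ v w, cl v w = cl w v) (j : Fin 6) (v : W) (hv : X.bl v ≠ none) :
    (nb (X.HH co R cl j) v).card = X.dl cl j v := by
  unfold Dat.dl
  congr 1
  ext w
  simp only [mem_nb, mem_filter, mem_univ, true_and]
  constructor
  · rintro (⟨h, -⟩ | ⟨h1, h2, -⟩)
    · exact absurd h.2.1 hv
    · exact ⟨h1, h2⟩
  · rintro ⟨h1, h2⟩
    exact Or.inr ⟨h1, h2, by rw [← hs]; exact h2⟩

theorem al_five (X : Dat W B) (th : W → Fin 3) (pt : W → Fin 2) (v : W) : X.al th pt 5 v := by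
  constructor
  · intro _ h
    have := congrArg Fin.val h
    simp only [cC] at this
    have h3 := (th v).2
    change 5 = ((th v : Fin 3) : ℕ) at this
    omega
  · intro _ h
    have := congrArg Fin.val h
    simp only [cQ] at this
    have h3 := (pt v).2
    change 5 = 3 + ((pt v : Fin 2) : ℕ) at this
    omega

theorem dl_zero (X : Dat W B) (th : W → Fin 3) (pt : W → Fin 2) (cl : W → W → Fin 6)
    (hal : ∀ v w, X.LE v w → X.al th pt (cl v w) v) (j : Fin 6) (v : W)
    (hn : ¬ X.al th pt j v) : X.dl cl j v = 0 := by
  unfold Dat.dl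
  rw [card_eq_zero, filter_eq_empty_iff]
  rintro w - ⟨h1, h2⟩
  exact hn (h2 ▸ hal v w h1)

theorem al_swp (X : Dat W B) (th : W → Fin 3) (pt : W → Fin 2) (cl cl' : W → W → Fin 6) (K4 : ℝ)
    (hal : ∀ v w, X.LE v w → X.al th pt (cl v w) v) (hS : Swp X K4 cl cl') :
    ∀ v w, X.LE v w → X.al th pt (cl' v w) v := by
  intro v w h
  by_cases he : cl' v w = cl v w
  · rw [he]; exact hal v w h
  · rw [(hS.ch v w he).1]; exact al_five X th pt v

theorem nd_iff (X : Dat W B) (th : W → Fin 3) (pt : W → Fin 2) (sd : W → Bool) (j : Fin 6) (v : W)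
    (p : B) (k : Fin 2) (s : Bool) : X.nd th pt sd j v = some ((p, k), s) ↔
      ∃ b, X.bl v = some b ∧ X.al th pt j v ∧ X.rp b = p ∧
        (if X.kd b = Kd.K then 0 else pt v) = k ∧ (if X.kd b = Kd.S then X.sb b else sd v) = s := by
  unfold Dat.nd
  cases hb : X.bl v with
  | none => simp
  | some b =>
    by_cases ha : X.al th pt j v
    · simp only [Option.bind_some, if_pos ha, Option.some.injEq, Prod.mk.injEq]
      constructor
      · rintro ⟨⟨h1, h2⟩, h3⟩
        exact ⟨b, rfl, ha, h1, h2, h3⟩
      · rintro ⟨b', h0, -, h1, h2, h3⟩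
        subst h0
        exact ⟨⟨h1, h2⟩, h3⟩
    · simp only [Option.bind_some, if_neg ha]
      constructor
      · intro h; exact absurd h (by simp)
      · rintro ⟨b', -, h, -⟩; exact absurd h ha

theorem sum_nsd (X : Dat W B) (th : W → Fin 3) (pt : W → Fin 2) (sd : W → Bool) (j : Fin 6)
    (p : B) (k : Fin 2) (s : Bool) (f : W → ℝ) :
    ∑ v ∈ nsd (X.nd th pt sd j) (p, k) s, f v =
      ∑ v, if X.nd th pt sd j v = some ((p, k), s) then f v else 0 := by
  unfold nsd
  rw [sum_filter]
  refine sum_congr rfl fun v _ => ?_
  by_cases h : X.nd th pt sd j v = some ((p, k), s)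
  · rw [if_pos h, if_pos h]
  · rw [if_neg h, if_neg h]

/-- the swaps in a part of a block -/
theorem swp_sum (X : Dat W B) (cl cl' : W → W → Fin 6) (j : Fin 6) (b : B) (T : Finset W)
    (hT : ∀ v ∈ T, X.bl v = some b) (m : ℝ)
    (hm : ((univ.filter fun p : W × W => X.bl p.1 = some b ∧ X.LE p.1 p.2 ∧
        cl' p.1 p.2 ≠ cl p.1 p.2).card : ℝ) ≤ m) :
    |∑ v ∈ T, (X.dl cl' j v : ℝ) - ∑ v ∈ T, (X.dl cl j v : ℝ)| ≤ m := by
  have key : ∀ v, |(X.dl cl' j v : ℝ) - (X.dl cl j v : ℝ)| ≤
      ((univ.filter fun w => X.LE v w ∧ cl' v w ≠ cl v w).card : ℝ) := by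
    intro v
    have h1 : X.dl cl' j v ≤ X.dl cl j v +
        (univ.filter fun w => X.LE v w ∧ cl' v w ≠ cl v w).card := by
      unfold Dat.dl
      refine le_trans (card_le_card ?_) (card_union_le _ _)
      intro w hw
      simp only [mem_filter, mem_univ, true_and, mem_union] at hw ⊢
      by_cases he : cl' v w = cl v w
      · exact Or.inl ⟨hw.1, he ▸ hw.2⟩
      · exact Or.inr ⟨hw.1, he⟩
    have h2 : X.dl cl j v ≤ X.dl cl' j v +
        (univ.filter fun w => X.LE v w ∧ cl' v w ≠ cl v w).card := by
      unfold Dat.dl
      refine le_trans (card_le_card ?_) (card_union_le _ _)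
      intro w hw
      simp only [mem_filter, mem_univ, true_and, mem_union] at hw ⊢
      by_cases he : cl' v w = cl v w
      · exact Or.inl ⟨hw.1, he ▸ hw.2⟩
      · exact Or.inr ⟨hw.1, he⟩
    have h1' : (X.dl cl' j v : ℝ) ≤ X.dl cl j v +
        ((univ.filter fun w => X.LE v w ∧ cl' v w ≠ cl v w).card : ℝ) := by exact_mod_cast h1
    have h2' : (X.dl cl j v : ℝ) ≤ X.dl cl' j v +
        ((univ.filter fun w => X.LE v w ∧ cl' v w ≠ cl v w).card : ℝ) := by exact_mod_cast h2
    rw [abs_le]; constructor <;> linarith
  rw [← sum_sub_distrib]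
  refine le_trans (abs_sum_le_sum_abs _ _) (le_trans (sum_le_sum fun v _ => key v) ?_)
  refine le_trans ?_ hm
  have : ∑ v ∈ T, (univ.filter fun w => X.LE v w ∧ cl' v w ≠ cl v w).card ≤
      (univ.filter fun p : W × W => X.bl p.1 = some b ∧ X.LE p.1 p.2 ∧
        cl' p.1 p.2 ≠ cl p.1 p.2).card := by
    rw [← card_sigma]
    refine card_le_card_of_injOn (fun p => (p.1, p.2)) ?_ ?_
    · rintro ⟨v, w⟩ h
      simp only [coe_sigma, coe_filter, mem_univ, true_and, Set.mem_sigma_iff, Finset.mem_coe,
        Set.mem_setOf_eq] at h ⊢
      exact ⟨hT v h.1, h.2.1, h.2.2⟩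
    · rintro ⟨v, w⟩ - ⟨v', w'⟩ - h
      simp only [Prod.mk.injEq] at h
      obtain ⟨rfl, rfl⟩ := h
      rfl
  exact_mod_cast this

theorem stmt_BAL : Stmt_BAL.{u} := by
  intro M C ε c K4 hC hε hc
  refine ⟨0, ?_⟩
  intro W B _ _ X th pt sd cl cl' co R _ E hs hal hS hblo hrow hsid j i
  obtain ⟨p, k⟩ := i
  have hal' := al_swp X th pt cl cl' K4 hal hS
  have hd0 : (0 : ℝ) ≤ ε * X.d := by positivity
  have hz : ∀ v, ¬ X.al th pt j v → (X.dl cl' j v : ℝ) = 0 := fun v hv => by
    exact_mod_cast dl_zero X th pt cl' hal' j v hv
  have hdeg : ∀ v b, X.bl v = some b → ((nb (X.HH co R cl' j) v).card : ℝ) = X.dl cl' j v :=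
    fun v b hb => by
      exact_mod_cast deg_HH X co R cl' hS.sym j v (by rw [hb]; simp)
  -- the case of a bad representative
  by_cases hkS : X.kd p = Kd.S
  · by_cases hrp : X.rp p = p
    · -- kind S
      have hblk : ∀ b, X.rp b = p ↔ b = p ∨ b = X.op p := by
        intro b
        constructor
        · intro h
          rcases E.rpb b with h' | h'
          · left; rw [← h', h]
          · right; rw [h] at h'; rw [h', E.opp]
        · rintro (rfl | rfl)
          · exact hrp
          · rw [(E.opk p).2.2, hrp]
      have hkop : X.kd (X.op p) = Kd.S := by rw [(E.opk p).1, hkS]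
      have hsop : X.sb (X.op p) = !(X.sb p) := (E.opS p hkS).1
      have hsum : ∀ s, ∑ v ∈ nsd (X.nd th pt sd j) (p, k) s,
          ((nb (X.HH co R cl' j) v).card : ℝ) =
          ∑ v ∈ (blk X.bl (if X.sb p = s then p else X.op p)).filter (fun v => pt v = k),
            (X.dl cl' j v : ℝ) := by
        intro s
        rw [sum_nsd, sum_filter, ← sum_subset (subset_univ (blk X.bl (if X.sb p = s then p
          else X.op p)))]
        · refine sum_congr rfl fun v hv => ?_
          rw [mem_blk] at hv
          by_cases hk : pt v = k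
          · rw [if_pos hk]
            by_cases ha : X.al th pt j v
            · rw [if_pos, hdeg v _ hv]
              rw [nd_iff]
              refine ⟨_, hv, ha, ?_, ?_, ?_⟩
              · rw [hblk]; split_ifs <;> simp
              · rw [if_neg, hk]
                split_ifs
                · rw [hkS]; simp
                · rw [hkop]; simp
              · by_cases hs' : X.sb p = s
                · simp only [if_pos hs', hkS, if_true]; exact hs'
                · simp only [if_neg hs', hkop, if_true, hsop]
                  cases h1 : X.sb p <;> cases s <;> simp_all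
            · rw [hz v ha]
              rw [if_neg]
              rw [nd_iff]
              rintro ⟨_, _, h, _⟩
              exact ha h
          · rw [if_neg hk, if_neg]
            rw [nd_iff]
            rintro ⟨b, hb, _, h1, h2, _⟩
            rw [if_neg] at h2
            · exact hk h2
            · rcases (hblk b).1 h1 with rfl | rfl
              · rw [hkS]; simp
              · rw [hkop]; simp
        · intro v _ hv
          rw [mem_blk] at hv
          rw [if_neg]
          rw [nd_iff]
          rintro ⟨b, hb, _, h1, _, h3⟩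
          apply hv
          rw [hb]
          congr 1
          rcases (hblk b).1 h1 with rfl | rfl
          · rw [if_pos hkS] at h3
            rw [if_pos h3]
          · rw [if_pos hkop, hsop] at h3
            rw [if_neg]
            intro h4
            rw [h4] at h3
            cases s <;> simp at h3
      unfold sdg
      rw [hsum, hsum]
      have hA := swp_sum X cl cl' j p ((blk X.bl p).filter fun v => pt v = k)
        (fun v hv => mem_blk.1 (mem_filter.1 hv).1) _ (hblo p)
      have hB := swp_sum X cl cl' j (X.op p) ((blk X.bl (X.op p)).filter fun v => pt v = k)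
        (fun v hv => mem_blk.1 (mem_filter.1 hv).1) _ (hblo (X.op p))
      have hR := hrow p k j hkS
      rw [abs_le] at hA hB hR ⊢
      cases hsp : X.sb p
      · simp only [if_true, Bool.false_eq_true, if_false]
        constructor <;> nlinarith [hA.1, hA.2, hB.1, hB.2, hR.1, hR.2]
      · simp only [if_true, Bool.true_eq_false, if_false]
        constructor <;> nlinarith [hA.1, hA.2, hB.1, hB.2, hR.1, hR.2]
    · -- empty node
      have hemp : ∀ s, nsd (X.nd th pt sd j) (p, k) s = ∅ := by
        intro s
        refine eq_empty_of_forall_notMem fun v hv => ?_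
        have h := mem_nsd.1 hv
        rw [nd_iff] at h
        obtain ⟨b, _, _, h1, _⟩ := h
        apply hrp
        rcases E.rpb b with h' | h'
        · rw [← h1]; rw [h', h']
        · have h2 : X.rp (X.op b) = X.rp b := (E.opk b).2.2
          rw [← h1]
          nth_rewrite 1 [h']
          exact h2
      unfold sdg
      rw [hemp, hemp]
      simp only [sum_empty, sub_self, abs_zero]
      nlinarith
  · -- kinds K and N
    have hblk : ∀ b, X.rp b = p → b = p := by
      intro b h
      rcases E.rpb b with h' | h'
      · rw [← h', h]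
      · rw [h] at h'
        have : X.op p = b := by rw [h', E.opp]
        rw [← this, (E.opN p hkS).1]
    by_cases hK0 : X.kd p = Kd.K ∧ k ≠ 0
    · have hemp : ∀ s, nsd (X.nd th pt sd j) (p, k) s = ∅ := by
        intro s
        refine eq_empty_of_forall_notMem fun v hv => ?_
        have h := mem_nsd.1 hv
        rw [nd_iff] at h
        obtain ⟨b, _, _, h1, h2, _⟩ := h
        have := hblk b h1
        subst this
        rw [if_pos hK0.1] at h2
        exact hK0.2 h2.symm
      unfold sdg
      rw [hemp, hemp]
      simp only [sum_empty, sub_self, abs_zero]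
      nlinarith
    · have hsum : ∀ s, ∑ v ∈ nsd (X.nd th pt sd j) (p, k) s,
          ((nb (X.HH co R cl' j) v).card : ℝ) =
          ∑ v ∈ (blk X.bl p).filter (fun v => X.kd p = Kd.K ∨ pt v = k),
            (X.dl cl' j v : ℝ) * (if sd v = s then 1 else 0) := by
        intro s
        rw [sum_nsd, sum_filter, ← sum_subset (subset_univ (blk X.bl p))]
        · refine sum_congr rfl fun v hv => ?_
          rw [mem_blk] at hv
          by_cases ha : X.al th pt j v
          · by_cases hk : X.kd p = Kd.K ∨ pt v = k
            · rw [if_pos hk]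
              by_cases hsv : sd v = s
              · rw [if_pos hsv, if_pos, hdeg v _ hv, mul_one]
                rw [nd_iff]
                refine ⟨p, hv, ha, (E.opN p hkS).2, ?_, ?_⟩
                · by_cases hKK : X.kd p = Kd.K
                  · rw [if_pos hKK]
                    by_contra h0
                    exact hK0 ⟨hKK, fun h => h0 h.symm⟩
                  · rw [if_neg hKK]
                    exact hk.resolve_left hKK
                · rw [if_neg hkS, hsv]
              · rw [if_neg hsv, mul_zero, if_neg]
                rw [nd_iff]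
                rintro ⟨b, hb, _, h1, _, h3⟩
                have := hblk b h1
                subst this
                rw [if_neg hkS] at h3
                exact hsv h3
            · rw [if_neg hk, if_neg]
              rw [nd_iff]
              rintro ⟨b, hb, _, h1, h2, h3⟩
              have := hblk b h1
              subst this
              push Not at hk
              rw [if_neg hk.1] at h2
              exact hk.2 h2
          · rw [hz v ha]
            rw [if_neg]
            · simp
            · rw [nd_iff]
              rintro ⟨_, _, h, _⟩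
              exact ha h
        · intro v _ hv
          rw [mem_blk] at hv
          rw [if_neg]
          rw [nd_iff]
          rintro ⟨b, hb, _, h1, _, _⟩
          have := hblk b h1
          subst this
          exact hv hb
      unfold sdg
      rw [hsum, hsum]
      have h1 := hsid p k j false hkS
      have h2 := hsid p k j true hkS
      have h3 : ∑ v ∈ (blk X.bl p).filter (fun v => X.kd p = Kd.K ∨ pt v = k),
            (X.dl cl' j v : ℝ) * (if sd v = false then 1 else 0) -
          ∑ v ∈ (blk X.bl p).filter (fun v => X.kd p = Kd.K ∨ pt v = k),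
            (X.dl cl' j v : ℝ) * (if sd v = true then 1 else 0) =
          ∑ v ∈ (blk X.bl p).filter (fun v => X.kd p = Kd.K ∨ pt v = k),
            (X.dl cl' j v : ℝ) * ((if sd v = false then 1 else 0) - 1 / 2) -
          ∑ v ∈ (blk X.bl p).filter (fun v => X.kd p = Kd.K ∨ pt v = k),
            (X.dl cl' j v : ℝ) * ((if sd v = true then 1 else 0) - 1 / 2) := by
        rw [← sum_sub_distrib, ← sum_sub_distrib]
        exact sum_congr rfl fun v _ => by ring
      rw [h3]
      rw [abs_le] at h1 h2 ⊢
      constructor <;> linarith [h1.1, h1.2, h2.1, h2.2]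

end Pool.Agent.Work.MP_db9399_ts.helper95
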