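import Pool.Agent.Work.MP_db9399_ts_helper95.BAL

/-!
# MP_db9399, TSPLIT, block PRS (helper95)

The family of edge sets for `Lgt.sh`: (vertex of `O`, block), (vertex of `O`, label), block,
(pair of blocks), (block, kind).
-/

set_option autoImplicit false

namespace Pool.Agent.Work.MP_db9399_ts.helper95

open Finset Classical
open Pool.Agent.Work.MP_db9399_all (nb)
open Pool.Agent.Work.MP_db9399_sg (nsd)
open Pool.Agent.Work.MP_db9399_ox (sdg)
open Pool.Agent.Work.MP_db9399_clj.helper75 (OO blk nB eE cO lgF scO Shr)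
open Pool.Agent.Work.MP_db9399_ts

universe u

/-- the three kinds -/
noncomputable instance instKd : Fintype Kd :=
  ⟨{Kd.K, Kd.N, Kd.S}, fun κ => by cases κ <;> simp⟩

theorem card_Kd : (univ : Finset Kd).card ≤ 3 := by
  have : (univ : Finset Kd) = {Kd.K, Kd.N, Kd.S} := rfl
  rw [this]
  exact card_le_three

section General

variable {W B : Type u} [Fintype W] [Fintype B]

theorem ng_sum (P : W → W → Prop) : ng P = ∑ v, ∑ w, if P v w then (1 : ℝ) else 0 := by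
  unfold ng
  rw [card_filter, ← sum_product', univ_product_univ]
  push_cast
  rfl

theorem ng_mono (P Q : W → W → Prop) (h : ∀ v w, P v w → Q v w) : ng P ≤ ng Q := by
  unfold ng
  have : (univ.filter fun p : W × W => P p.1 p.2).card ≤
      (univ.filter fun p : W × W => Q p.1 p.2).card := by
    refine card_le_card fun p hp => ?_
    simp only [mem_filter, mem_univ, true_and] at hp ⊢
    exact h _ _ hp
  exact_mod_cast this

theorem ng_congr (P Q : W → W → Prop) (h : ∀ v w, P v w ↔ Q v w) : ng P = ng Q :=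
  le_antisymm (ng_mono P Q fun v w => (h v w).1) (ng_mono Q P fun v w => (h v w).2)

theorem ng_pt (P : W → W → Prop) (x : W) (h : ∀ v w, P v w → w = x) :
    ng P = ((univ.filter fun v => P v x).card : ℝ) := by
  rw [ng_sum, card_filter]
  push_cast
  refine sum_congr rfl fun v _ => ?_
  rw [sum_eq_single x]
  · intro w _ hw
    rw [if_neg]
    intro hP
    exact hw (h v w hP)
  · intro h; exact absurd (mem_univ x) h

theorem ng_pt_le (P : W → W → Prop) (x : W) (S : Finset W) (h : ∀ v w, P v w → w = x)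
    (h2 : ∀ v, P v x → v ∈ S) : ng P ≤ (S.card : ℝ) := by
  rw [ng_pt P x h]
  refine Nat.cast_le.2 (card_le_card fun v hv => ?_)
  exact h2 v (mem_filter.1 hv).2

theorem eE_ng (E : SimpleGraph W) (A A' : Finset W) :
    eE E A A' = ng (fun v w => v ∈ A ∧ w ∈ A' ∧ E.Adj v w) := by
  rw [ng_sum]
  unfold eE
  rw [← sum_subset (subset_univ A)]
  · refine sum_congr rfl fun v hv => ?_
    have : nb E v ∩ A' = univ.filter fun w => v ∈ A ∧ w ∈ A' ∧ E.Adj v w := by
      ext w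
      simp only [mem_inter, mem_nb, mem_filter, mem_univ, true_and]
      tauto
    rw [this, card_filter]
    push_cast
    refine sum_congr rfl fun w _ => ?_
    congr
  · intro v _ hv
    refine sum_eq_zero fun w _ => ?_
    rw [if_neg]
    rintro ⟨h, _⟩
    exact hv h

theorem cx_ng (X : Dat W B) (gr : W → Fin 3) (A A' : Finset W) :
    X.cx gr A A' = ng (fun v w => v ∈ A ∧ w ∈ A' ∧ X.Th.Adj v w ∧ gr v ≠ gr w) := by
  unfold Dat.cx Dat.cg
  have h1 : ∀ a a' : Fin 3, (if a = a' then (0 : ℝ) else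
      eE X.Th (A.filter fun v => gr v = a) (A'.filter fun v => gr v = a')) =
      ∑ v, ∑ w, if a = a' then (0 : ℝ) else
        if (v ∈ A ∧ gr v = a) ∧ (w ∈ A' ∧ gr w = a') ∧ X.Th.Adj v w then 1 else 0 := by
    intro a a'
    by_cases h : a = a'
    · simp [h]
    · simp only [if_neg h]
      rw [eE_ng, ng_sum]
      refine sum_congr rfl fun v _ => sum_congr rfl fun w _ => ?_
      simp only [mem_filter]
  rw [sum_congr rfl fun a _ => sum_congr rfl fun a' _ => h1 a a']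
  rw [ng_sum]
  rw [sum_congr rfl fun a _ => sum_comm]
  rw [sum_comm]
  refine sum_congr rfl fun v _ => ?_
  rw [sum_congr rfl fun a _ => sum_comm]
  rw [sum_comm]
  refine sum_congr rfl fun w _ => ?_
  rw [sum_eq_single (gr v)]
  · rw [sum_eq_single (gr w)]
    · by_cases hg : gr v = gr w
      · rw [if_pos hg, if_neg]
        rintro ⟨_, _, _, h⟩
        exact h hg
      · rw [if_neg hg]
        by_cases hc : v ∈ A ∧ w ∈ A' ∧ X.Th.Adj v w
        · rw [if_pos ⟨⟨hc.1, rfl⟩, ⟨hc.2.1, rfl⟩, hc.2.2⟩, if_pos ⟨hc.1, hc.2.1, hc.2.2, hg⟩]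
        · rw [if_neg, if_neg]
          · rintro ⟨a, b, c, _⟩; exact hc ⟨a, b, c⟩
          · rintro ⟨⟨a, _⟩, ⟨b, _⟩, c⟩; exact hc ⟨a, b, c⟩
    · intro a' _ ha'
      split_ifs with h1 h2
      · rfl
      · exact absurd h2.2.1.2.symm ha'
      · rfl
    · intro h; exact absurd (mem_univ _) h
  · intro a _ ha
    refine sum_eq_zero fun a' _ => ?_
    split_ifs with h1 h2
    · rfl
    · exact absurd h2.1.2.symm ha
    · rfl
  · intro h; exact absurd (mem_univ _) h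

/-- pairs with a given second vertex -/
theorem cnt1 (G : SimpleGraph W) (d : ℕ) (hd : ∀ v, (nb G v).card = d) (x : W)
    (P : W → W → Prop) (hP : ∀ v w, P v w → w = x ∧ G.Adj v w) :
    ((univ.filter fun p : W × W => P p.1 p.2).card : ℝ) ≤ d := by
  have : (univ.filter fun p : W × W => P p.1 p.2).card ≤ (nb G x).card := by
    refine card_le_card_of_injOn (fun p => p.1) ?_ ?_
    · intro p hp
      simp only [coe_filter, mem_univ, true_and, Set.mem_setOf_eq] at hp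
      rw [Finset.mem_coe, mem_nb]
      obtain ⟨h1, h2⟩ := hP _ _ hp
      rw [h1] at h2
      exact h2.symm
    · intro p hp p' hp' h
      simp only [coe_filter, mem_univ, true_and, Set.mem_setOf_eq] at hp hp'
      refine Prod.ext h ?_
      rw [(hP _ _ hp).1, (hP _ _ hp').1]
  rw [hd] at this
  exact_mod_cast this

/-- pairs whose first vertex is in a given block -/
theorem cnt2 (G : SimpleGraph W) (d : ℕ) (hd : ∀ v, (nb G v).card = d) (T : Finset W) (C : ℝ)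
    (hT : (T.card : ℝ) ≤ C * d) (P : W → W → Prop) (hP : ∀ v w, P v w → v ∈ T ∧ G.Adj v w) :
    ((univ.filter fun p : W × W => P p.1 p.2).card : ℝ) ≤ C * d ^ 2 := by
  have : (univ.filter fun p : W × W => P p.1 p.2).card ≤ ∑ v ∈ T, (nb G v).card := by
    rw [← card_sigma]
    refine card_le_card_of_injOn (fun p => ⟨p.1, p.2⟩) ?_ ?_
    · intro p hp
      simp only [coe_filter, mem_univ, true_and, Set.mem_setOf_eq] at hp
      rw [Finset.mem_coe, mem_sigma]
      exact ⟨(hP _ _ hp).1, mem_nb.2 (hP _ _ hp).2⟩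
    · intro p hp p' hp' h
      simp only [Sigma.mk.injEq, heq_eq_eq] at h
      exact Prod.ext h.1 h.2
  rw [sum_congr rfl fun v _ => hd v, sum_const, smul_eq_mul] at this
  calc ((univ.filter fun p : W × W => P p.1 p.2).card : ℝ) ≤ ((T.card * d : ℕ) : ℝ) := by
        exact_mod_cast this
    _ = (T.card : ℝ) * d := by push_cast; ring
    _ ≤ C * d * d := mul_le_mul_of_nonneg_right hT (by positivity)
    _ = C * d ^ 2 := by ring

end General

section Numbers

theorem num0 (K : ℝ) : ∃ d0 : ℕ, ∀ d : ℕ, d0 ≤ d → K ≤ (d : ℝ) ^ (1 / 100 : ℝ) := by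
  have h := (tendsto_rpow_atTop (show (0 : ℝ) < 1 / 100 by norm_num)).comp
    (tendsto_natCast_atTop_atTop (R := ℝ))
  have h2 := h.eventually (Filter.eventually_ge_atTop K)
  obtain ⟨d0, hd0⟩ := Filter.eventually_atTop.1 h2
  exact ⟨d0, fun d hd => hd0 d hd⟩

theorem numy (d : ℕ) (hd : 1 ≤ d) (n : ℕ) :
    (d : ℝ) ^ ((n : ℝ) / 100) = ((d : ℝ) ^ (1 / 100 : ℝ)) ^ n := by
  rw [← Real.rpow_natCast, ← Real.rpow_mul (by positivity)]
  congr 1
  ring

theorem numlog (d : ℕ) (hd : 1 ≤ d) : Real.log d ^ 3 ≤ 10 ^ 6 * ((d : ℝ) ^ (1 / 100 : ℝ)) ^ 3 := by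
  have h1 := Real.log_le_rpow_div (show (0 : ℝ) ≤ d by positivity)
    (show (0 : ℝ) < 1 / 100 by norm_num)
  have h0 : 0 ≤ Real.log d := Real.log_natCast_nonneg d
  calc Real.log d ^ 3 ≤ ((d : ℝ) ^ (1 / 100 : ℝ) / (1 / 100)) ^ 3 := pow_le_pow_left₀ h0 h1 3
    _ = 10 ^ 6 * ((d : ℝ) ^ (1 / 100 : ℝ)) ^ 3 := by ring

theorem num1 (d : ℕ) (hd : 1 ≤ d) (n : ℝ) (h0 : 0 ≤ n) (hn : n ≤ d)
    (hy : 10 ^ 7 ≤ (d : ℝ) ^ (1 / 100 : ℝ)) :
    Real.log d ^ 3 * (Real.sqrt (n * 1) + n / d) ≤ (d : ℝ) ^ (7 / 10 : ℝ) := by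
  have hdp : (0 : ℝ) < d := by exact_mod_cast hd
  set y := (d : ℝ) ^ (1 / 100 : ℝ) with hyd
  have hy1 : 1 ≤ y := by linarith [show (1 : ℝ) ≤ 10 ^ 7 by norm_num]
  have e1 : (d : ℝ) = y ^ 100 := by
    rw [hyd, ← numy d hd 100]
    norm_num
  have e2 : (d : ℝ) ^ (7 / 10 : ℝ) = y ^ 70 := by
    rw [hyd, ← numy d hd 70]
    norm_num
  have s1 : Real.sqrt (n * 1) ≤ y ^ 50 := by
    rw [mul_one]
    refine Real.sqrt_le_iff.2 ⟨by positivity, ?_⟩
    calc n ≤ d := hn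
      _ = y ^ 100 := e1
      _ = (y ^ 50) ^ 2 := by ring
  have s2 : n / d ≤ y ^ 50 := by
    have : n / d ≤ 1 := by rw [div_le_one hdp]; exact hn
    exact this.trans (one_le_pow₀ hy1)
  have hl := numlog d hd
  rw [← hyd] at hl
  have hl0 : 0 ≤ Real.log d ^ 3 := pow_nonneg (Real.log_natCast_nonneg d) 3
  have hs0 : 0 ≤ Real.sqrt (n * 1) + n / d := by positivity
  calc Real.log d ^ 3 * (Real.sqrt (n * 1) + n / d) ≤ (10 ^ 6 * y ^ 3) * (y ^ 50 + y ^ 50) :=
        mul_le_mul hl (add_le_add s1 s2) hs0 (by positivity)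
    _ = (2 * 10 ^ 6) * y ^ 53 := by ring
    _ ≤ y * y ^ 53 := by
        refine mul_le_mul_of_nonneg_right ?_ (by positivity)
        linarith [show (2 : ℝ) * 10 ^ 6 ≤ 10 ^ 7 by norm_num]
    _ = y ^ 54 := by ring
    _ ≤ y ^ 70 := pow_le_pow_right₀ hy1 (by norm_num)
    _ = (d : ℝ) ^ (7 / 10 : ℝ) := e2.symm

theorem num2 (C : ℝ) (hC : 1 ≤ C) (d : ℕ) (hd : 1 ≤ d) (n : ℝ) (h0 : 0 ≤ n) (hn : n ≤ C * d ^ 2)
    (hy : 10 ^ 7 * C ≤ (d : ℝ) ^ (1 / 100 : ℝ)) :
    Real.log d ^ 3 * (Real.sqrt (n * d) + n / d) ≤ (d : ℝ) ^ (17 / 10 : ℝ) := by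
  have hdp : (0 : ℝ) < d := by exact_mod_cast hd
  set y := (d : ℝ) ^ (1 / 100 : ℝ) with hyd
  have hy1 : 1 ≤ y := by nlinarith
  have e1 : (d : ℝ) = y ^ 100 := by
    rw [hyd, ← numy d hd 100]
    norm_num
  have e2 : (d : ℝ) ^ (17 / 10 : ℝ) = y ^ 170 := by
    rw [hyd, ← numy d hd 170]
    norm_num
  have s1 : Real.sqrt (n * d) ≤ C * y ^ 150 := by
    refine Real.sqrt_le_iff.2 ⟨by positivity, ?_⟩
    calc n * d ≤ C * d ^ 2 * d := mul_le_mul_of_nonneg_right hn hdp.le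
      _ = C * y ^ 300 := by rw [e1]; ring
      _ ≤ C * y ^ 300 * C := by
          have : 0 ≤ C * y ^ 300 := by positivity
          nlinarith
      _ = (C * y ^ 150) ^ 2 := by ring
  have s2 : n / d ≤ C * y ^ 150 := by
    rw [div_le_iff₀ hdp]
    calc n ≤ C * d ^ 2 := hn
      _ = C * y ^ 100 * d := by rw [e1]; ring
      _ ≤ C * y ^ 150 * d := by
          refine mul_le_mul_of_nonneg_right ?_ hdp.le
          exact mul_le_mul_of_nonneg_left (pow_le_pow_right₀ hy1 (by norm_num)) (by linarith)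
  have hl := numlog d hd
  rw [← hyd] at hl
  have hl0 : 0 ≤ Real.log d ^ 3 := pow_nonneg (Real.log_natCast_nonneg d) 3
  have hs0 : 0 ≤ Real.sqrt (n * d) + n / d := by positivity
  calc Real.log d ^ 3 * (Real.sqrt (n * d) + n / d) ≤
        (10 ^ 6 * y ^ 3) * (C * y ^ 150 + C * y ^ 150) :=
        mul_le_mul hl (add_le_add s1 s2) hs0 (by positivity)
    _ = (2 * 10 ^ 6 * C) * y ^ 153 := by ring
    _ ≤ y * y ^ 153 := by
        refine mul_le_mul_of_nonneg_right ?_ (by positivity)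
        nlinarith
    _ = y ^ 154 := by ring
    _ ≤ y ^ 170 := pow_le_pow_right₀ hy1 (by norm_num)
    _ = (d : ℝ) ^ (17 / 10 : ℝ) := e2.symm

end Numbers

section Main

variable {W B : Type u} [Fintype W] [Fintype B]

/-- the names of the sets of edges -/
abbrev Tq (W B : Type u) : Type u := (W × B) ⊕ ((W × Fin 6) ⊕ (B ⊕ ((B × B) ⊕ (B × Kd))))

/-- the sets of edges -/
noncomputable def GG (X : Dat W B) (gr : W → Fin 3) (t : ℝ) : Tq W B → W → W → Prop
  | Sum.inl (x, b) => fun v w => w = x ∧ X.bl x = none ∧ X.bl v = some b ∧ X.G.Adj v w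
  | Sum.inr (Sum.inl (x, f)) => fun v w => w = x ∧ X.bl x = none ∧ X.G.Adj v w ∧ X.kin v f ∧
      ∃ b, X.bl v = some b ∧ X.n x b < t * X.d
  | Sum.inr (Sum.inr (Sum.inl b)) => fun v w => X.bl v = some b ∧
      w ∈ scO X.G X.bl (t * X.d) b ∧ X.G.Adj v w
  | Sum.inr (Sum.inr (Sum.inr (Sum.inl (b, b')))) => fun v w => X.bl v = some b ∧
      X.bl w = some b' ∧ X.Th.Adj v w ∧ gr v ≠ gr w ∧ (X.cb b = X.cb b' → (X.d : ℝ) ≤ X.e b b')
  | Sum.inr (Sum.inr (Sum.inr (Sum.inr (b, κ)))) => fun v w => X.bl v = some b ∧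
      w ∈ X.fas (t * X.d ^ 2) b κ ∧ X.Th.Adj v w ∧ gr v ≠ gr w

/-- degrees -/
noncomputable def DD (X : Dat W B) : Tq W B → ℝ
  | Sum.inl _ => 1
  | Sum.inr (Sum.inl _) => 1
  | Sum.inr (Sum.inr _) => X.d

theorem th_le (X : Dat W B) {v w : W} (h : X.Th.Adj v w) : X.G.Adj v w := by
  unfold Dat.Th at h
  rw [SimpleGraph.sdiff_adj] at h
  exact h.1

theorem adj_th (X : Dat W B) {M : ℕ} {C ζ θ c : ℝ} (E : Env X M C ζ θ c) {v w : W}
    (h : X.G.Adj v w) (hw : X.bl w = none) : X.Th.Adj v w := by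
  unfold Dat.Th
  rw [SimpleGraph.sdiff_adj]
  refine ⟨h, fun h' => ?_⟩
  obtain ⟨b, _, hb⟩ := E.bk v w h'
  rw [hw] at hb
  exact absurd hb (by simp)

/-- every set consists of edges -/
theorem GG_adj (X : Dat W B) (gr : W → Fin 3) (t : ℝ) (q : Tq W B) (v w : W)
    (h : GG X gr t q v w) : X.G.Adj v w := by
  rcases q with ⟨x, b⟩ | ⟨x, f⟩ | b | ⟨b, b'⟩ | ⟨b, κ⟩
  · exact h.2.2.2
  · exact h.2.2.1
  · exact h.2.2
  · exact th_le X h.2.2.1
  · exact th_le X h.2.2.1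

theorem nb_deg (X : Dat W B) (hd : ∀ v, (nb X.G v).card = X.d) (v : W) (P : W → Prop)
    (hP : ∀ w, P w → X.G.Adj v w) : ((univ.filter P).card : ℝ) ≤ X.d := by
  have : (univ.filter P).card ≤ (nb X.G v).card := by
    refine card_le_card fun w hw => ?_
    rw [mem_nb]
    exact hP w (mem_filter.1 hw).2
  rw [hd] at this
  exact_mod_cast this

/-- the blocks at the vertices of a set -/
noncomputable def bls (X : Dat W B) (N : Finset W) : Finset B :=
  univ.filter fun b => ∃ w ∈ N, X.bl w = some b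

theorem bls_card (X : Dat W B) (N : Finset W) : (bls X N).card ≤ N.card := by
  have h1 : (bls X N).image some ⊆ N.image X.bl := by
    intro y hy
    rw [mem_image] at hy
    obtain ⟨b, hb, rfl⟩ := hy
    unfold bls at hb
    rw [mem_filter] at hb
    obtain ⟨-, w, hw, hb⟩ := hb
    rw [mem_image]
    exact ⟨w, hw, hb⟩
  calc (bls X N).card = ((bls X N).image some).card :=
        (card_image_of_injective _ (Option.some_injective B)).symm
    _ ≤ (N.image X.bl).card := card_le_card h1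
    _ ≤ N.card := card_image_le

theorem GG_mu (X : Dat W B) (gr : W → Fin 3) (t : ℝ) (hd : ∀ v, (nb X.G v).card = X.d) (v : W) :
    (univ.filter fun q => ∃ w, GG X gr t q v w ∨ GG X gr t q w v).card ≤ 12 * (X.d + 1) ^ 2 := by
  set N := insert v (nb X.G v) with hN
  have hNc : N.card ≤ X.d + 1 := by
    rw [hN]
    refine (card_insert_le _ _).trans ?_
    rw [hd]
  have hBc : (bls X N).card ≤ X.d + 1 := (bls_card X N).trans hNc
  have hsub : (univ.filter fun q => ∃ w, GG X gr t q v w ∨ GG X gr t q w v) ⊆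
      (N ×ˢ bls X N).disjSum ((N ×ˢ (univ : Finset (Fin 6))).disjSum ((bls X N).disjSum
        ((bls X N ×ˢ bls X N).disjSum (bls X N ×ˢ (univ : Finset Kd))))) := by
    intro q hq
    rw [mem_filter] at hq
    obtain ⟨-, w, hw⟩ := hq
    have hadj : X.G.Adj v w := by
      rcases hw with h | h
      · exact GG_adj X gr t q v w h
      · exact (GG_adj X gr t q w v h).symm
    have hvN : v ∈ N := mem_insert_self _ _
    have hwN : w ∈ N := mem_insert_of_mem (mem_nb.2 hadj)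
    have hbN : ∀ b, X.bl v = some b ∨ X.bl w = some b → b ∈ bls X N := by
      intro b hb
      unfold bls
      rw [mem_filter]
      rcases hb with hb | hb
      · exact ⟨mem_univ _, v, hvN, hb⟩
      · exact ⟨mem_univ _, w, hwN, hb⟩
    rcases q with ⟨x, b⟩ | ⟨x, f⟩ | b | ⟨b, b'⟩ | ⟨b, κ⟩
    · rw [inl_mem_disjSum, mem_product]
      rcases hw with h | h
      · exact ⟨by rw [← h.1]; exact hwN, hbN b (Or.inl h.2.2.1)⟩
      · exact ⟨by rw [← h.1]; exact hvN, hbN b (Or.inr h.2.2.1)⟩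
    · rw [inr_mem_disjSum, inl_mem_disjSum, mem_product]
      rcases hw with h | h
      · exact ⟨by rw [← h.1]; exact hwN, mem_univ _⟩
      · exact ⟨by rw [← h.1]; exact hvN, mem_univ _⟩
    · rw [inr_mem_disjSum, inr_mem_disjSum, inl_mem_disjSum]
      rcases hw with h | h
      · exact hbN b (Or.inl h.1)
      · exact hbN b (Or.inr h.1)
    · rw [inr_mem_disjSum, inr_mem_disjSum, inr_mem_disjSum, inl_mem_disjSum, mem_product]
      rcases hw with h | h
      · exact ⟨hbN b (Or.inl h.1), hbN b' (Or.inr h.2.1)⟩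
      · exact ⟨hbN b (Or.inr h.1), hbN b' (Or.inl h.2.1)⟩
    · rw [inr_mem_disjSum, inr_mem_disjSum, inr_mem_disjSum, inr_mem_disjSum, mem_product]
      rcases hw with h | h
      · exact ⟨hbN b (Or.inl h.1), mem_univ _⟩
      · exact ⟨hbN b (Or.inr h.1), mem_univ _⟩
  refine (card_le_card hsub).trans ?_
  simp only [card_disjSum, card_product, card_univ, Fintype.card_fin]
  have hK : Fintype.card Kd ≤ 3 := by rw [← card_univ]; exact card_Kd
  have h1 : N.card * (bls X N).card ≤ (X.d + 1) * (X.d + 1) := Nat.mul_le_mul hNc hBc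
  have h2 : (bls X N).card * (bls X N).card ≤ (X.d + 1) * (X.d + 1) := Nat.mul_le_mul hBc hBc
  have h3 : (bls X N).card * Fintype.card Kd ≤ (X.d + 1) * 3 := Nat.mul_le_mul hBc hK
  nlinarith

theorem GG_GamH (X : Dat W B) (gr : W → Fin 3) (t : ℝ) {M : ℕ} {C ζ θ c : ℝ} (hC : 1 ≤ C)
    (E : Env X M C ζ θ c) (hd1 : 1 ≤ X.d)
    (hy : 10 ^ 7 * C ≤ (X.d : ℝ) ^ (1 / 100 : ℝ)) :
    GamH X gr 6 (GG X gr t) (DD X) := by
  have hdR : (1 : ℝ) ≤ X.d := by exact_mod_cast hd1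
  have hCd : 10 ^ 7 * C ≤ (X.d : ℝ) := by
    refine hy.trans ?_
    calc (X.d : ℝ) ^ (1 / 100 : ℝ) ≤ (X.d : ℝ) ^ (1 : ℝ) :=
          Real.rpow_le_rpow_of_exponent_le hdR (by norm_num)
      _ = X.d := Real.rpow_one _
  have hd6 : (X.d : ℝ) ^ (6 : ℝ) = (X.d : ℝ) ^ 6 := by
    rw [← Real.rpow_natCast]; norm_num
  have hC2 : C * (X.d : ℝ) ^ 2 ≤ (X.d : ℝ) ^ 6 := by
    calc C * (X.d : ℝ) ^ 2 ≤ X.d * (X.d : ℝ) ^ 2 :=
          mul_le_mul_of_nonneg_right (by nlinarith) (by positivity)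
      _ = (X.d : ℝ) ^ 3 := by ring
      _ ≤ (X.d : ℝ) ^ 6 := pow_le_pow_right₀ hdR (by norm_num)
  have hd1' : (X.d : ℝ) ≤ (X.d : ℝ) ^ 6 := by
    calc (X.d : ℝ) = (X.d : ℝ) ^ 1 := (pow_one _).symm
      _ ≤ (X.d : ℝ) ^ 6 := pow_le_pow_right₀ hdR (by norm_num)
  refine ⟨?_, ?_, ?_, ?_, ?_, ?_⟩
  · -- le
    intro q v w h
    rcases q with ⟨x, b⟩ | ⟨x, f⟩ | b | ⟨b, b'⟩ | ⟨b, κ⟩
    · obtain ⟨h1, h2, h3, h4⟩ := h
      refine ⟨adj_th X E h4 (h1 ▸ h2), fun h5 => ?_⟩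
      rw [h5.1] at h3; exact absurd h3 (by simp)
    · obtain ⟨h1, h2, h3, h4, b, h5, h6⟩ := h
      refine ⟨adj_th X E h3 (h1 ▸ h2), fun h7 => ?_⟩
      rw [h7.1] at h5; exact absurd h5 (by simp)
    · obtain ⟨h1, h2, h3⟩ := h
      have hw : X.bl w = none := by
        unfold scO OO at h2
        rw [mem_filter, mem_filter] at h2
        exact h2.1.2
      refine ⟨adj_th X E h3 hw, fun h7 => ?_⟩
      rw [h7.1] at h1; exact absurd h1 (by simp)
    · refine ⟨h.2.2.1, fun h7 => ?_⟩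
      have := h.1
      rw [h7.1] at this; exact absurd this (by simp)
    · refine ⟨h.2.2.1, fun h7 => ?_⟩
      have := h.1
      rw [h7.1] at this; exact absurd this (by simp)
  · -- gr
    intro q v w a a' h hv hw
    rcases q with ⟨x, b⟩ | ⟨x, f⟩ | b | ⟨b, b'⟩ | ⟨b, κ⟩
    · obtain ⟨h1, h2, -⟩ := h
      rw [h1, h2] at hw; exact absurd hw (by simp)
    · obtain ⟨h1, h2, -⟩ := h
      rw [h1, h2] at hw; exact absurd hw (by simp)
    · obtain ⟨h1, h2, h3⟩ := h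
      have hw' : X.bl w = none := by
        unfold scO OO at h2
        rw [mem_filter, mem_filter] at h2
        exact h2.1.2
      rw [hw'] at hw; exact absurd hw (by simp)
    · obtain ⟨h1, h2, h3, h4, h5⟩ := h
      rw [hv] at h1; rw [hw] at h2
      obtain rfl := Option.some.inj h1
      obtain rfl := Option.some.inj h2
      exact ⟨h4, h5⟩
    · obtain ⟨h1, h2, h3, h4⟩ := h
      unfold Dat.fas at h2
      rw [mem_filter] at h2
      obtain ⟨-, b', h5, h6, h7, h8⟩ := h2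
      rw [hv] at h1; rw [hw] at h5
      obtain rfl := Option.some.inj h1
      obtain rfl := Option.some.inj h5
      exact ⟨h4, h8⟩
  · -- d1
    intro q v hv
    rcases q with ⟨x, b⟩ | ⟨x, f⟩ | q
    · change ((univ.filter fun w => GG X gr t (Sum.inl (x, b)) v w).card : ℝ) ≤ 1
      have : (univ.filter fun w => GG X gr t (Sum.inl (x, b)) v w) ⊆ {x} := by
        intro w hw
        rw [mem_singleton]
        exact (mem_filter.1 hw).2.1
      have h2 := card_le_card this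
      rw [card_singleton] at h2
      exact_mod_cast h2
    · change ((univ.filter fun w => GG X gr t (Sum.inr (Sum.inl (x, f))) v w).card : ℝ) ≤ 1
      have : (univ.filter fun w => GG X gr t (Sum.inr (Sum.inl (x, f))) v w) ⊆ {x} := by
        intro w hw
        rw [mem_singleton]
        exact (mem_filter.1 hw).2.1
      have h2 := card_le_card this
      rw [card_singleton] at h2
      exact_mod_cast h2
    · exact nb_deg X E.reg v _ fun w hw => GG_adj X gr t _ v w hw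
  · -- d2
    intro q w hw0
    rcases q with ⟨x, b⟩ | ⟨x, f⟩ | q
    · change ((univ.filter fun v => GG X gr t (Sum.inl (x, b)) v w).card : ℝ) ≤ 1
      have : (univ.filter fun v => GG X gr t (Sum.inl (x, b)) v w) = ∅ := by
        rw [filter_eq_empty_iff]
        intro v _ h
        exact hw0 (by rw [h.1]; exact h.2.1)
      rw [this]; simp
    · change ((univ.filter fun v => GG X gr t (Sum.inr (Sum.inl (x, f))) v w).card : ℝ) ≤ 1
      have : (univ.filter fun v => GG X gr t (Sum.inr (Sum.inl (x, f))) v w) = ∅ := by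
        rw [filter_eq_empty_iff]
        intro v _ h
        exact hw0 (by rw [h.1]; exact h.2.1)
      rw [this]; simp
    · exact nb_deg X E.reg w _ fun v hv => (GG_adj X gr t _ v w hv).symm
  · -- sp
    intro q
    rw [hd6]
    rcases q with ⟨x, b⟩ | ⟨x, f⟩ | b | ⟨b, b'⟩ | ⟨b, κ⟩
    · exact (cnt1 X.G X.d E.reg x _ fun v w h => ⟨h.1, h.2.2.2⟩).trans hd1'
    · exact (cnt1 X.G X.d E.reg x _ fun v w h => ⟨h.1, h.2.2.1⟩).trans hd1'
    · exact (cnt2 X.G X.d E.reg (blk X.bl b) C (E.sz b).2 _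
        fun v w h => ⟨mem_blk.2 h.1, GG_adj X gr t _ v w h⟩).trans hC2
    · exact (cnt2 X.G X.d E.reg (blk X.bl b) C (E.sz b).2 _
        fun v w h => ⟨mem_blk.2 h.1, GG_adj X gr t _ v w h⟩).trans hC2
    · exact (cnt2 X.G X.d E.reg (blk X.bl b) C (E.sz b).2 _
        fun v w h => ⟨mem_blk.2 h.1, GG_adj X gr t _ v w h⟩).trans hC2
  · -- mu
    intro v
    rw [hd6]
    have h1 := GG_mu X gr t E.reg v
    have h2 : ((univ.filter fun q => ∃ w, GG X gr t q v w ∨ GG X gr t q w v).card : ℝ) ≤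
        12 * ((X.d : ℝ) + 1) ^ 2 := by exact_mod_cast h1
    refine h2.trans ?_
    have h3 : (12 : ℝ) ≤ X.d := by nlinarith
    have h4 : ((X.d : ℝ) + 1) ^ 2 ≤ (X.d : ℝ) * (X.d : ℝ) ^ 2 := by nlinarith
    calc 12 * ((X.d : ℝ) + 1) ^ 2 ≤ X.d * (X.d * (X.d : ℝ) ^ 2) :=
          mul_le_mul h3 h4 (by positivity) (by positivity)
      _ = (X.d : ℝ) ^ 4 := by ring
      _ ≤ (X.d : ℝ) ^ 6 := pow_le_pow_right₀ hdR (by norm_num)

/-- the label which is possible in a block -/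
theorem kb_kin (X : Dat W B) {b : B} {f : Fin 6} (h : X.kb b f) {v : W} (hv : X.bl v = some b) :
    X.kin v f := by
  rcases h with ⟨h1, h2⟩ | ⟨h1, h2⟩
  · exact Or.inl ⟨⟨b, hv, h1⟩, h2⟩
  · exact Or.inr (Or.inl ⟨⟨b, hv, h1⟩, h2⟩)

theorem kb_ne5 (X : Dat W B) {b : B} {f : Fin 6} (h : X.kb b f) : f ≠ 5 := by
  rintro rfl
  rcases h with ⟨_, h2⟩ | ⟨_, h2⟩
  · exact absurd h2 (by decide)
  · exact absurd h2 (by decide)

/-- two labels are possible for every kind -/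
theorem kb_ex (κ : Kd) (j : Fin 6) : ∃ f' : Fin 6, j ≠ f' ∧
    ((κ = Kd.K ∧ f' < 3) ∨ (κ ≠ Kd.K ∧ (f' = 3 ∨ f' = 4))) := by
  by_cases hκ : κ = Kd.K
  · by_cases hj : j = 0
    · exact ⟨1, by rw [hj]; decide, Or.inl ⟨hκ, by decide⟩⟩
    · exact ⟨0, hj, Or.inl ⟨hκ, by decide⟩⟩
  · by_cases hj : j = 3
    · exact ⟨4, by rw [hj]; decide, Or.inr ⟨hκ, Or.inr rfl⟩⟩
    · exact ⟨3, hj, Or.inr ⟨hκ, Or.inl rfl⟩⟩

end Main

theorem stmt_PRS : Stmt_PRS.{u} := by
  intro M C c c1 hC hc hc' hc1 hc1'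
  obtain ⟨d0, hd0⟩ := num0 (10 ^ 7 * C)
  refine ⟨max d0 1, ?_⟩
  intro W B _ _ X gr t hd E
  have hd1 : 1 ≤ X.d := (le_max_right _ _).trans hd
  have hy := hd0 X.d ((le_max_left _ _).trans hd)
  have hy7 : 10 ^ 7 ≤ (X.d : ℝ) ^ (1 / 100 : ℝ) := by nlinarith
  refine ⟨Tq W B, inferInstance, GG X gr t, DD X, GG_GamH X gr t hC E hd1 hy, ?_⟩
  intro th pt cl hs H
  have hng0 : ∀ q, 0 ≤ ng (GG X gr t q) := fun q => by unfold ng; positivity
  have hn1 : ∀ x b, ng (GG X gr t (Sum.inl (x, b))) ≤ X.d := fun x b =>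
    cnt1 X.G X.d E.reg x _ fun v w h => ⟨h.1, h.2.2.2⟩
  have hn2 : ∀ x f, ng (GG X gr t (Sum.inr (Sum.inl (x, f)))) ≤ X.d := fun x f =>
    cnt1 X.G X.d E.reg x _ fun v w h => ⟨h.1, h.2.2.1⟩
  have hn3 : ∀ b, ng (GG X gr t (Sum.inr (Sum.inr (Sum.inl b)))) ≤ C * (X.d : ℝ) ^ 2 := fun b =>
    cnt2 X.G X.d E.reg (blk X.bl b) C (E.sz b).2 _
        fun v w h => ⟨mem_blk.2 h.1, GG_adj X gr t _ v w h⟩
  have hn4 : ∀ b b', ng (GG X gr t (Sum.inr (Sum.inr (Sum.inr (Sum.inl (b, b')))))) ≤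
      C * (X.d : ℝ) ^ 2 := fun b b' =>
    cnt2 X.G X.d E.reg (blk X.bl b) C (E.sz b).2 _
        fun v w h => ⟨mem_blk.2 h.1, GG_adj X gr t _ v w h⟩
  have hn5 : ∀ b κ, ng (GG X gr t (Sum.inr (Sum.inr (Sum.inr (Sum.inr (b, κ)))))) ≤
      C * (X.d : ℝ) ^ 2 := fun b κ =>
    cnt2 X.G X.d E.reg (blk X.bl b) C (E.sz b).2 _
        fun v w h => ⟨mem_blk.2 h.1, GG_adj X gr t _ v w h⟩
  refine ⟨?_, ?_, ?_, ?_, ?_⟩
  · -- p1
    intro x b f j hx hb hj
    have h := H (Sum.inl (x, b)) f 5 j (fun v w h => ⟨kb_kin X hb h.2.2.1,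
      Or.inr (Or.inr ⟨by rw [h.1]; exact h.2.1, rfl⟩)⟩) (Or.inr hj) (Or.inl rfl)
    have e1 : ng (GG X gr t (Sum.inl (x, b))) = X.n x b := by
      rw [ng_pt _ x fun v w h => h.1]
      unfold Dat.n nB
      congr 2
      ext v
      simp only [mem_filter, mem_univ, true_and, mem_inter, mem_nb, mem_blk, GG]
      constructor
      · rintro ⟨-, h3, h4⟩; exact ⟨h4.symm, h3⟩
      · rintro ⟨h4, h3⟩; exact ⟨hx, h3, h4.symm⟩
    have e2 : ng (fun v w => GG X gr t (Sum.inl (x, b)) v w ∧ X.lab th pt v = f ∧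
        X.lab th pt w = 5 ∧ cl v w = j) ≤
        (((nb X.G x).filter fun v => X.bl v = some b ∧ X.lab th pt v = f ∧ cl v x = j).card : ℝ) := by
      refine ng_pt_le _ x _ (fun v w h => h.1.1) fun v hv => ?_
      obtain ⟨h1, h2, h3, h4⟩ := hv
      rw [mem_filter]
      exact ⟨mem_nb.2 h1.2.2.2.symm, h1.2.2.1, h2, h4⟩
    have e3 := num1 X.d hd1 _ (hng0 (Sum.inl (x, b))) (hn1 x b) hy7
    change c1 * ng (GG X gr t (Sum.inl (x, b))) ≤ _ + Real.log X.d ^ 3 *
      (Real.sqrt (ng (GG X gr t (Sum.inl (x, b))) * 1) + _) at h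
    rw [e1] at h e3
    linarith
  · -- p2
    intro x f j hx hf hj
    have h := H (Sum.inr (Sum.inl (x, f))) f 5 j (fun v w h => ⟨h.2.2.2.1,
      Or.inr (Or.inr ⟨by rw [h.1]; exact h.2.1, rfl⟩)⟩) (Or.inr hj) (Or.inl rfl)
    have e1 : ng (GG X gr t (Sum.inr (Sum.inl (x, f)))) =
        (((nb X.G x).filter fun v => X.kin v f ∧
          ∃ b, X.bl v = some b ∧ X.n x b < t * X.d).card : ℝ) := by
      rw [ng_pt _ x fun v w h => h.1]
      congr 2
      ext v
      simp only [mem_filter, mem_univ, true_and, mem_nb, GG]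
      constructor
      · rintro ⟨-, h3, h4, h5⟩; exact ⟨h3.symm, h4, h5⟩
      · rintro ⟨h3, h4, h5⟩; exact ⟨hx, h3.symm, h4, h5⟩
    have e2 : ng (fun v w => GG X gr t (Sum.inr (Sum.inl (x, f))) v w ∧ X.lab th pt v = f ∧
        X.lab th pt w = 5 ∧ cl v w = j) ≤
        (((nb X.G x).filter fun v => X.lab th pt v = f ∧
          (∃ b, X.bl v = some b ∧ X.n x b < t * X.d) ∧ cl v x = j).card : ℝ) := by
      refine ng_pt_le _ x _ (fun v w h => h.1.1) fun v hv => ?_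
      obtain ⟨h1, h2, h3, h4⟩ := hv
      rw [mem_filter]
      exact ⟨mem_nb.2 h1.2.2.1.symm, h2, h1.2.2.2.2, h4⟩
    have e3 := num1 X.d hd1 _ (hng0 (Sum.inr (Sum.inl (x, f)))) (hn2 x f) hy7
    change c1 * ng (GG X gr t (Sum.inr (Sum.inl (x, f)))) ≤ _ + Real.log X.d ^ 3 *
      (Real.sqrt (ng (GG X gr t (Sum.inr (Sum.inl (x, f)))) * 1) + _) at h
    rw [e1] at h e3
    linarith
  · -- p3
    intro b f j hb hj
    have hsc : ∀ w, w ∈ scO X.G X.bl (t * X.d) b → X.bl w = none := by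
      intro w h2
      unfold scO OO at h2
      rw [mem_filter, mem_filter] at h2
      exact h2.1.2
    have h := H (Sum.inr (Sum.inr (Sum.inl b))) f 5 j (fun v w h => ⟨kb_kin X hb h.1,
      Or.inr (Or.inr ⟨hsc w h.2.1, rfl⟩)⟩) (Or.inr hj) (Or.inl rfl)
    have e1 : eE X.G (blk X.bl b) (scO X.G X.bl (t * X.d) b) =
        ng (GG X gr t (Sum.inr (Sum.inr (Sum.inl b)))) := by
      rw [eE_ng]
      refine ng_congr _ _ fun v w => ?_
      simp only [GG, mem_blk]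
    have e2 : ng (fun v w => GG X gr t (Sum.inr (Sum.inr (Sum.inl b))) v w ∧
        X.lab th pt v = f ∧ X.lab th pt w = 5 ∧ cl v w = j) ≤
        ng (fun v x => X.bl v = some b ∧ X.lab th pt v = f ∧ x ∈ scO X.G X.bl (t * X.d) b ∧
          X.G.Adj v x ∧ cl v x = j) := by
      refine ng_mono _ _ fun v w h => ?_
      obtain ⟨⟨h1, h2, h3⟩, h4, h5, h6⟩ := h
      exact ⟨h1, h4, h2, h3, h6⟩
    have e3 := num2 C hC X.d hd1 _ (hng0 (Sum.inr (Sum.inr (Sum.inl b)))) (hn3 b) hy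
    rw [e1]
    change c1 * ng (GG X gr t (Sum.inr (Sum.inr (Sum.inl b)))) ≤ _ + Real.log X.d ^ 3 *
      (Real.sqrt (ng (GG X gr t (Sum.inr (Sum.inr (Sum.inl b)))) * X.d) + _) at h
    linarith
  · -- p4
    intro b b' f f' j hb hb' hj hj' hcb
    have h := H (Sum.inr (Sum.inr (Sum.inr (Sum.inl (b, b'))))) f f' j
      (fun v w h => ⟨kb_kin X hb h.1, kb_kin X hb' h.2.1⟩) (Or.inr hj) (Or.inr hj')
    have e1 : X.cx gr (blk X.bl b) (blk X.bl b') =
        ng (GG X gr t (Sum.inr (Sum.inr (Sum.inr (Sum.inl (b, b')))))) := by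
      rw [cx_ng]
      refine ng_congr _ _ fun v w => ?_
      simp only [GG, mem_blk]
      constructor
      · rintro ⟨h1, h2, h3, h4⟩; exact ⟨h1, h2, h3, h4, hcb⟩
      · rintro ⟨h1, h2, h3, h4, -⟩; exact ⟨h1, h2, h3, h4⟩
    have e2 : ng (fun v w => GG X gr t (Sum.inr (Sum.inr (Sum.inr (Sum.inl (b, b'))))) v w ∧
        X.lab th pt v = f ∧ X.lab th pt w = f' ∧ cl v w = j) ≤
        ng (fun v w => X.bl v = some b ∧ X.bl w = some b' ∧ X.Th.Adj v w ∧ gr v ≠ gr w ∧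
          X.lab th pt v = f ∧ X.lab th pt w = f' ∧ cl v w = j) := by
      refine ng_mono _ _ fun v w h => ?_
      obtain ⟨⟨h1, h2, h3, h3', -⟩, h4, h5, h6⟩ := h
      exact ⟨h1, h2, h3, h3', h4, h5, h6⟩
    have e3 := num2 C hC X.d hd1 _ (hng0 (Sum.inr (Sum.inr (Sum.inr (Sum.inl (b, b'))))))
      (hn4 b b') hy
    rw [e1]
    change c1 * ng (GG X gr t (Sum.inr (Sum.inr (Sum.inr (Sum.inl (b, b')))))) ≤ _ +
      Real.log X.d ^ 3 *
      (Real.sqrt (ng (GG X gr t (Sum.inr (Sum.inr (Sum.inr (Sum.inl (b, b')))))) * X.d) + _) at h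
    linarith
  · -- p5
    intro b κ f j hb hj
    obtain ⟨f', hj', hf'⟩ := kb_ex κ j
    have hfas : ∀ w, w ∈ X.fas (t * X.d ^ 2) b κ → X.kin w f' := by
      intro w hw
      unfold Dat.fas at hw
      rw [mem_filter] at hw
      obtain ⟨-, b', h5, h6, -⟩ := hw
      refine kb_kin X (b := b') ?_ h5
      unfold Dat.kb
      rw [h6]
      exact hf'
    have h := H (Sum.inr (Sum.inr (Sum.inr (Sum.inr (b, κ))))) f f' j
      (fun v w h => ⟨kb_kin X hb h.1, hfas w h.2.1⟩) (Or.inr hj) (Or.inr hj')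
    have e1 : X.cx gr (blk X.bl b) (X.fas (t * X.d ^ 2) b κ) =
        ng (GG X gr t (Sum.inr (Sum.inr (Sum.inr (Sum.inr (b, κ)))))) := by
      rw [cx_ng]
      refine ng_congr _ _ fun v w => ?_
      simp only [GG, mem_blk]
    have e2 : ng (fun v w => GG X gr t (Sum.inr (Sum.inr (Sum.inr (Sum.inr (b, κ))))) v w ∧
        X.lab th pt v = f ∧ X.lab th pt w = f' ∧ cl v w = j) ≤
        ng (fun v w => X.bl v = some b ∧ X.lab th pt v = f ∧ w ∈ X.fas (t * X.d ^ 2) b κ ∧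
          X.Th.Adj v w ∧ gr v ≠ gr w ∧ cl v w = j) := by
      refine ng_mono _ _ fun v w h => ?_
      obtain ⟨⟨h1, h2, h3, h3'⟩, h4, h5, h6⟩ := h
      exact ⟨h1, h4, h2, h3, h3', h6⟩
    have e3 := num2 C hC X.d hd1 _ (hng0 (Sum.inr (Sum.inr (Sum.inr (Sum.inr (b, κ))))))
      (hn5 b κ) hy
    rw [e1]
    change c1 * ng (GG X gr t (Sum.inr (Sum.inr (Sum.inr (Sum.inr (b, κ)))))) ≤ _ +
      Real.log X.d ^ 3 *
      (Real.sqrt (ng (GG X gr t (Sum.inr (Sum.inr (Sum.inr (Sum.inr (b, κ)))))) * X.d) + _) at h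
    linarith

end Pool.Agent.Work.MP_db9399_ts.helper95
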